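import Mathlib

set_option autoImplicit false

/-!
Project HP (MP_ffd2c1_ag): cubic fourfolds containing a plane whose Brauer class is that of a net
of quadrics in five-dimensional projective space are rational.  Definitions shared by all pieces.
-/

namespace Pool.Agent.Helper29.HP

open MvPolynomial

/-- the field `C(x)` -/
abbrev kx : Type := FractionRing (Polynomial ℂ)

/-- the ring `C(x)[y]` -/
abbrev AA : Type := Polynomial kx

/-- the field `C(x, y)` -/
abbrev KK : Type := FractionRing AA

/-- homogeneous coordinates of the plane -/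
abbrev P3 : Type := MvPolynomial (Fin 3) ℂ

/-- affine coordinates of the plane -/
abbrev P2 : Type := MvPolynomial (Fin 2) ℂ

/-- every ternary quadratic form over `k` is isotropic -/
def Tern (k : Type*) [Field k] : Prop :=
  ∀ G : Matrix (Fin 3) (Fin 3) k, G.IsSymm → ∃ v : Fin 3 → k, v ≠ 0 ∧ v ⬝ᵥ G.mulVec v = 0

/-- every unimodular symmetric matrix of size at least three is isotropic -/
def Iso3 (A : Type*) [CommRing A] : Prop :=
  ∀ (n : ℕ) (G : Matrix (Fin n) (Fin n) A), 3 ≤ n → G.IsSymm → IsUnit G.det →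
    ∃ v : Fin n → A, v ≠ 0 ∧ v ⬝ᵥ G.mulVec v = 0

/-- dehomogenisation `z = (1, x, y)` with values in `C(x)[y]` -/
noncomputable def psi : P3 →ₐ[ℂ] AA :=
  aeval ![1, Polynomial.C (algebraMap (Polynomial ℂ) kx Polynomial.X), Polynomial.X]

/-- dehomogenisation with values in `C(x, y)` -/
noncomputable def psiK : P3 →ₐ[ℂ] KK := (IsScalarTower.toAlgHom ℂ AA KK).comp psi

/-- dehomogenisation with values in `C[x, y]` -/
noncomputable def dh2 : P3 →ₐ[ℂ] P2 := aeval (Fin.cons 1 X)

/-- `h` vanishes with even multiplicity at every point of the smooth curve `δ = 0` -/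
def EvenOn (δ h : P3) : Prop :=
  ∀ z : Fin 3 → ℂ, z ≠ 0 → eval z δ = 0 →
    ∃ α β σ : P3, eval z α ≠ 0 ∧ eval z β ≠ 0 ∧ δ ∣ α * h - β * σ ^ 2

/-- the matrix of the net spanned by three symmetric matrices -/
noncomputable def netP (m : Fin 3 → Matrix (Fin 6) (Fin 6) ℂ) : Matrix (Fin 6) (Fin 6) P3 :=
  Matrix.of fun i j => ∑ k, C (m k i j) * X k

/-- the point of the plane for which `v` lies in the quadric and in the tangent hyperplane
at `p` -/
def TT {S : Type*} [CommRing S] (m : Fin 3 → Matrix (Fin 6) (Fin 6) S) (p v : Fin 6 → S) :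
    Fin 3 → S :=
  crossProduct (fun k => p ⬝ᵥ (m k).mulVec v) (fun k => v ⬝ᵥ (m k).mulVec v)

end Pool.Agent.Helper29.HP
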