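import Mathlib
import Pool.Agent.Helper29.HP.St.Purity
import Pool.Agent.Helper29.HP.St.SimIso
import Pool.Agent.Helper29.HP.St.Dom
import Pool.Agent.Helper29.HP.St.RatIso
import Pool.Agent.Helper29.HP.St.RatSim
import Pool.Agent.Helper29.HP.St.Psi
import Pool.Agent.Helper29.HP.St.Six
import Pool.Agent.Helper29.HP.St.NonSing
import Pool.Agent.Helper29.HP.St.DixMat
import Pool.Agent.Helper29.HP.St.EvenOn
set_option autoImplicit false

/-!
Assembly: cubic fourfolds containing a plane whose Brauer class is that of a net of quadrics.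
-/

namespace Pool.Agent.Helper29.HP

open MvPolynomial

/-- a common zero of a net of quadrics in six variables -/
theorem exists_base (m : Fin 3 → Matrix (Fin 6) (Fin 6) ℂ) :
    ∃ p : Fin 6 → ℂ, p ≠ 0 ∧ ∀ k, p ⬝ᵥ (m k).mulVec p = 0 := by
  have key : ∀ (k : Fin 3) (x : Fin 6 → ℂ), eval x (∑ i, ∑ j, C (m k i j) * (X i * X j) :
      MvPolynomial (Fin 6) ℂ) = x ⬝ᵥ (m k).mulVec x := by
    intro k x
    simp only [map_sum, map_mul, eval_C, eval_X, dotProduct, Matrix.mulVec, Finset.mul_sum]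
    refine Finset.sum_congr rfl fun i _ => Finset.sum_congr rfl fun j _ => ?_
    ring
  obtain ⟨x, hx, h⟩ := Pool.Agent.Helper16.exists_common_zero
    (fun k : Fin 3 => (∑ i, ∑ j, C (m k i j) * (X i * X j) : MvPolynomial (Fin 6) ℂ))
    (fun k => by rw [key]; simp) (by simp)
  exact ⟨x, hx, fun k => by rw [← key]; exact h k⟩

theorem netP_base {S : Type*} [CommRing S] [Algebra ℂ S] (m : Fin 3 → Matrix (Fin 6) (Fin 6) ℂ)
    (f : P3 →ₐ[ℂ] S) (p : Fin 6 → ℂ) (hp : ∀ k, p ⬝ᵥ (m k).mulVec p = 0) :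
    (fun i => algebraMap ℂ S (p i)) ⬝ᵥ ((netP m).map f).mulVec (fun i => algebraMap ℂ S (p i)) =
      0 := by
  have h : (netP m).map f = ∑ k, f (X k) • (m k).map (algebraMap ℂ S) := by
    ext i j
    simp only [netP, Matrix.map_apply, Matrix.of_apply, map_sum, map_mul, Matrix.sum_apply,
      Matrix.smul_apply, smul_eq_mul]
    refine Finset.sum_congr rfl fun k _ => ?_
    rw [mul_comm]
    congr 1
    exact AlgHom.commutes f (m k i j)
  rw [h, Matrix.sum_mulVec, dotProduct_sum]
  refine Finset.sum_eq_zero fun k _ => ?_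
  rw [Matrix.smul_mulVec, dotProduct_smul]
  have h2 : (fun i => algebraMap ℂ S (p i)) ⬝ᵥ ((m k).map (algebraMap ℂ S)).mulVec
      (fun i => algebraMap ℂ S (p i)) = algebraMap ℂ S (p ⬝ᵥ (m k).mulVec p) := by
    simp only [dotProduct, Matrix.mulVec, Matrix.map_apply, map_sum, map_mul]
  rw [h2, hp k, map_zero, smul_zero]

theorem netP_symm (m : Fin 3 → Matrix (Fin 6) (Fin 6) ℂ) (hm : ∀ k, (m k).IsSymm) :
    (netP m).IsSymm := by
  apply Matrix.IsSymm.ext
  intro i j
  simp only [netP, Matrix.of_apply]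
  refine Finset.sum_congr rfl fun k _ => ?_
  rw [(hm k).apply]

theorem map_symm {n : ℕ} {R S : Type*} [CommRing R] [CommRing S] (f : R → S)
    {N : Matrix (Fin n) (Fin n) R} (hN : N.IsSymm) : (N.map f).IsSymm := by
  apply Matrix.IsSymm.ext
  intro i j
  simp only [Matrix.map_apply]
  rw [hN.apply]

/-- mapping bilinear expressions -/
theorem map_bil {n : ℕ} {R S : Type*} [CommRing R] [CommRing S] (f : R →+* S)
    (N : Matrix (Fin n) (Fin n) R) (u v : Fin n → R) :
    (fun i => f (u i)) ⬝ᵥ (N.map f).mulVec (fun i => f (v i)) = f (u ⬝ᵥ N.mulVec v) := by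
  simp only [dotProduct, Matrix.mulVec, Matrix.map_apply, map_sum, map_mul]

/-- base change of linearly independent pairs of vectors to the fraction field -/
theorem li_frac {ι : Type*} {a b : ℕ} (u : ι → Fin a → AA) (v : ι → Fin b → AA)
    (h : LinearIndependent AA (fun i => (u i, v i))) :
    LinearIndependent KK (fun i => ((fun k => algebraMap AA KK (u i k)),
      (fun k => algebraMap AA KK (v i k)))) := by
  have hinj : Function.Injective (algebraMap AA KK) := IsFractionRing.injective AA KK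
  let φ : ((Fin a → AA) × (Fin b → AA)) →ₗ[AA] ((Fin a → KK) × (Fin b → KK)) :=
    { toFun := fun x => ((fun k => algebraMap AA KK (x.1 k)), (fun k => algebraMap AA KK (x.2 k)))
      map_add' := fun x y => by
        refine Prod.ext ?_ ?_ <;> funext k <;> simp
      map_smul' := fun r x => by
        refine Prod.ext ?_ ?_ <;> funext k <;>
          simp only [RingHom.id_apply, Prod.smul_fst, Prod.smul_snd, Pi.smul_apply, smul_eq_mul,
            map_mul] <;> exact (Algebra.smul_def _ _).symm }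
  have hφ : LinearMap.ker φ = ⊥ := by
    rw [LinearMap.ker_eq_bot]
    intro x y hxy
    have h1 := congrArg Prod.fst hxy
    have h2 := congrArg Prod.snd hxy
    refine Prod.ext ?_ ?_
    · funext k
      exact hinj (congrFun h1 k)
    · funext k
      exact hinj (congrFun h2 k)
  have h3 := h.map' φ hφ
  exact LinearIndependent.localization KK (nonZeroDivisors AA) h3

open Pool.Agent.Helper16 in
theorem main_of_net {c : Cub (I6 → ℂ)} (hP : c.Iso P0) (hirr : Irreducible c.disc)
    (hsm : ∀ z : Fin 3 → ℂ, z ≠ 0 → eval z c.disc = 0 → ∃ i, eval z (pderiv i c.disc) ≠ 0)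
    (m : Fin 3 → Matrix (Fin 6) (Fin 6) ℂ) (hm : ∀ k, (m k).IsSymm)
    (hdet : (netP m).det = c.disc) (μ : P3) {n : ℕ} (hμ : μ.IsHomogeneous n)
    (hμδ : ¬ c.disc ∣ μ)
    (hsp : ∀ π : P3, Irreducible π → π ∣ μ → ∃ g h : P3, ¬ π ∣ h ∧ π ∣ g ^ 2 - c.disc * h ^ 2)
    (i : Fin 4) (j : Fin 6) (s : P3)
    (hi : ¬ c.disc ∣ (c.Nm (X : Fin 3 → P3)).adjugate i i)
    (hj : ¬ c.disc ∣ (netP m).adjugate j j) {ni nj : ℕ}
    (hih : ((c.Nm (X : Fin 3 → P3)).adjugate i i).IsHomogeneous ni)
    (hjh : ((netP m).adjugate j j).IsHomogeneous nj)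
    (hs : c.disc ∣ s ^ 2 - μ * (c.Nm (X : Fin 3 → P3)).adjugate i i *
      (netP m).adjugate j j) : c.Rat4 := by
  have hμ0 : μ ≠ 0 := fun h => hμδ (h ▸ dvd_zero _)
  have hδh : c.disc.IsHomogeneous 6 := c.disc_hom
  have hprime : Prime (psi c.disc) := psi_prime_of_deg hirr hδh (by norm_num)
  set N := c.Nm (X : Fin 3 → P3) with hN
  have hNs : N.IsSymm := c.Nm_symm _
  have hMs : (netP m).IsSymm := netP_symm m hm
  have hadjN : (N.map psi).adjugate = N.adjugate.map psi :=
    (AlgHom.map_adjugate psi N).symm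
  have hadjM : ((netP m).map psi).adjugate = (netP m).adjugate.map psi :=
    (RingHom.map_adjugate (psi : P3 →+* AA) (netP m)).symm
  have hdisc : c.disc = N.det := rfl
  have hdN : (N.map psi).det = psi c.disc := by
    rw [hdisc]; exact (AlgHom.map_det psi N).symm
  have hdM : ((netP m).map psi).det = psi c.disc := by
    rw [← hdet]; exact (RingHom.map_det (psi : P3 →+* AA) (netP m)).symm
  obtain ⟨u, v, huv, hb⟩ := purity (N.map psi) ((netP m).map psi) (map_symm _ hNs)
    (map_symm _ hMs) (psi c.disc) (psi μ) (psi s) hprime hdN hdM (psi_ne_zero hμ hμ0)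
    (fun h => hμδ (dvd_of_psi_dvd hirr hδh hμ hprime h)) (psi_sq hμ hμ0 hδh hsp) i j (by
      rw [hadjN, Matrix.map_apply]
      exact fun h => hi (dvd_of_psi_dvd hirr hδh hih hprime h)) (by
      rw [hadjM, Matrix.map_apply]
      exact fun h => hj (dvd_of_psi_dvd hirr hδh hjh hprime h)) (by
      rw [hadjN, hadjM, Matrix.map_apply, Matrix.map_apply, ← map_pow, ← map_mul, ← map_mul,
        ← map_sub]
      exact map_dvd psi hs)
  have hK : ∀ Q : P3, algebraMap AA KK (psi Q) = psiK Q := fun Q => rfl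
  have hinj : Function.Injective (algebraMap AA KK) := IsFractionRing.injective AA KK
  have hNK : (N.map psi).map (algebraMap AA KK) = N.map psiK := by
    rw [Matrix.map_map]; rfl
  have hMK : ((netP m).map psi).map (algebraMap AA KK) = (netP m).map psiK := by
    rw [Matrix.map_map]; rfl
  have hdNK : (N.map psiK).det = psiK c.disc := (RingHom.map_det (psiK : P3 →+* KK) N).symm
  have hdMK : ((netP m).map psiK).det = psiK c.disc := by
    rw [← hdet]; exact (RingHom.map_det (psiK : P3 →+* KK) (netP m)).symm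
  have hδ0 : psiK c.disc ≠ 0 := by
    rw [psiK_apply]
    intro h
    exact hprime.ne_zero (hinj (h.trans (map_zero _).symm))
  have hμK : psiK μ ≠ 0 := by
    rw [psiK_apply]
    intro h
    exact psi_ne_zero hμ hμ0 (hinj (h.trans (map_zero _).symm))
  obtain ⟨p, hp, hpp⟩ := exists_base m
  have hpK : (fun i => algebraMap ℂ KK (p i)) ≠ 0 := by
    intro h
    apply hp
    funext k
    have h1 := congrFun h k
    have h2 : Function.Injective (algebraMap ℂ KK) := (algebraMap ℂ KK).injective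
    exact h2 (h1.trans (map_zero _).symm)
  rcases sim_or_iso (two_ne_zero) (N.map psiK) ((netP m).map psiK) (map_symm _ hNs)
    (map_symm _ hMs) (by rw [hdNK]; exact hδ0) (by rw [hdMK]; exact hδ0) (psiK μ) hμK
    (fun a k => algebraMap AA KK (u a k)) (fun a k => algebraMap AA KK (v a k)) (li_frac u v huv)
    (by
      intro a b
      have h1 := congrArg (algebraMap AA KK) (hb a b)
      rw [map_mul, ← map_bil, ← map_bil, hNK, hMK] at h1
      exact h1) (fun i => algebraMap ℂ KK (p i)) hpK (netP_base m psiK p hpp) with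
    ⟨y, hy, hy0⟩ | ⟨Φ, h1, h2⟩
  · exact rat4_of_iso hP y hy hy0
  · exact rat4_of_sim hP m hm p hp hpp (by rw [hdet]; exact hirr.ne_zero)
      (fun h hh => dominant m hm p hp hpp (by rw [hdet]; exact hirr) (by rw [hdet]; exact hsm) h hh)
      Φ (psiK μ) hμK h1 h2


open Pool.Agent.Helper16 in
/-- the square-class condition modulo a form can be realised by forms of the right degrees -/
theorem hom_sq3 {π δ g h : P3} {e : ℕ} (hπ : π.IsHomogeneous e) (hirr : Irreducible π)
    (hδ : δ.IsHomogeneous 6) (h1 : ¬ π ∣ h) (h2 : π ∣ g ^ 2 - δ * h ^ 2) :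
    ∃ (d : ℕ) (g' h' : P3), g'.IsHomogeneous (d + 3) ∧ h'.IsHomogeneous d ∧ ¬ π ∣ h' ∧
      π ∣ g' ^ 2 - δ * h' ^ 2 := by
  classical
  by_cases hδπ : π ∣ δ
  · refine ⟨0, 0, 1, isHomogeneous_zero _ _ _, isHomogeneous_one _ _, ?_, ?_⟩
    · intro h; exact hirr.not_isUnit (isUnit_of_dvd_one h)
    · have : (0 : P3) ^ 2 - δ * 1 ^ 2 = - δ := by ring
      rw [this]; exact (dvd_neg).mpr hδπ
  have hp : (Ideal.span {π}).IsPrime := (Ideal.span_singleton_prime hirr.ne_zero).mpr hirr.prime
  let D := P3 ⧸ Ideal.span {π}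
  have : IsDomain D := Ideal.Quotient.isDomain _
  let q : P3 →+* D := Ideal.Quotient.mk _
  have hq : ∀ f, q f = 0 ↔ π ∣ f := by
    intro f
    rw [← Ideal.mem_span_singleton]
    exact Ideal.Quotient.eq_zero_iff_mem
  let τ : P3 →+* Polynomial D := (Polynomial.mapRingHom q).comp
    ((scal : P3 →ₐ[ℂ] Polynomial P3) : P3 →+* Polynomial P3)
  have hτc : ∀ f i, (τ f).coeff i = q (homogeneousComponent i f) := by
    intro f i
    change ((scal f).map q).coeff i = _
    rw [Polynomial.coeff_map, Pool.Agent.Helper82.HP.coeff_scal]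
  have hτπ : τ π = 0 := by
    change (scal π).map q = 0
    rw [scal_hom hπ, Polynomial.map_mul, Polynomial.map_C, (hq π).mpr dvd_rfl]
    simp
  have hτδ : τ δ = Polynomial.C (q δ) * Polynomial.X ^ 6 := by
    change (scal δ).map q = _
    rw [scal_hom hδ, Polynomial.map_mul, Polynomial.map_C, Polynomial.map_pow, Polynomial.map_X]
    exact Polynomial.X_pow_mul
  have hτh : τ h ≠ 0 := by
    intro h3
    apply h1
    rw [← hq, ← sum_homogeneousComponent h, map_sum]
    apply Finset.sum_eq_zero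
    intro i _
    rw [← hτc, h3, Polynomial.coeff_zero]
  have hqδ : q δ ≠ 0 := fun h => hδπ ((hq δ).mp h)
  have heq : τ g ^ 2 = τ δ * τ h ^ 2 := by
    obtain ⟨c, hc⟩ := h2
    have := congrArg τ hc
    rw [map_mul, hτπ, zero_mul, map_sub, map_mul, map_pow, map_pow] at this
    exact sub_eq_zero.mp this
  have hl := congrArg Polynomial.leadingCoeff heq
  rw [Polynomial.leadingCoeff_pow, Polynomial.leadingCoeff_mul, Polynomial.leadingCoeff_pow, hτδ,
    Polynomial.leadingCoeff_C_mul_X_pow] at hl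
  have hdeg := congrArg Polynomial.natDegree heq
  rw [hτδ, Polynomial.natDegree_pow, Polynomial.natDegree_mul
    (mul_ne_zero (Polynomial.C_ne_zero.mpr hqδ) (pow_ne_zero _ Polynomial.X_ne_zero))
    (pow_ne_zero _ hτh), Polynomial.natDegree_C_mul_X_pow _ _ hqδ, Polynomial.natDegree_pow] at hdeg
  have hdeg' : (τ g).natDegree = (τ h).natDegree + 3 := by omega
  refine ⟨(τ h).natDegree, homogeneousComponent ((τ h).natDegree + 3) g,
    homogeneousComponent (τ h).natDegree h,
    homogeneousComponent_isHomogeneous _ _, homogeneousComponent_isHomogeneous _ _, ?_, ?_⟩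
  · rw [← hq, ← hτc]
    exact Polynomial.leadingCoeff_ne_zero.mpr hτh
  · rw [← hq, map_sub, map_mul, map_pow, map_pow, ← hτc, ← hτc, sub_eq_zero, ← hdeg']
    exact hl


/-- a form of degree smaller than that of a prime form dividing it vanishes -/
theorem eq_zero_of_dvd_lt {δ f : P3} {n m : ℕ} (hδ : δ.IsHomogeneous n) (hδ0 : δ ≠ 0)
    (hf : f.IsHomogeneous m) (hmn : m < n) (h : δ ∣ f) : f = 0 := by
  by_contra hf0
  obtain ⟨g, hg⟩ := h
  have hg0 : g ≠ 0 := by rintro rfl; exact hf0 (by rw [hg, mul_zero])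
  have h1 := hf.totalDegree hf0
  rw [hg, totalDegree_mul_of_isDomain hδ0 hg0, hδ.totalDegree hδ0] at h1
  omega

/-- linear forms -/
theorem linear_eq {f : P3} (hf : f.IsHomogeneous 1) :
    f = ∑ k, C (coeff (Finsupp.single k 1) f) * X k := by
  ext m
  by_cases hm : ∃ k, m = Finsupp.single k 1
  · obtain ⟨k, rfl⟩ := hm
    rw [coeff_sum, Finset.sum_eq_single k]
    · rw [coeff_C_mul, coeff_X, if_pos rfl, mul_one]
    · intro b _ hb
      rw [coeff_C_mul, coeff_X, if_neg, mul_zero]
      intro h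
      exact hb (Finsupp.single_left_injective one_ne_zero h)
    · simp
  · have h1 : coeff m f = 0 := by
      by_contra hc
      have h2 := hf hc
      have h3 : m.degree = 1 := by rw [Finsupp.degree_eq_weight_one]; exact h2
      apply hm
      have h4 : ∃ k, m k ≠ 0 := by
        by_contra h4
        push Not at h4
        have : m = 0 := Finsupp.ext h4
        rw [this, map_zero] at h3
        exact zero_ne_one h3
      obtain ⟨k, hk⟩ := h4
      refine ⟨k, ?_⟩
      have h5 : Finsupp.single k 1 ≤ m := by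
        rw [Finsupp.single_le_iff]; omega
      obtain ⟨m', hm'⟩ := exists_add_of_le h5
      have h6 : m'.degree = 0 := by
        rw [hm', map_add, Finsupp.degree_single] at h3
        omega
      rw [Finsupp.degree_eq_zero_iff] at h6
      rw [hm', h6, add_zero]
    rw [h1, coeff_sum]
    symm
    apply Finset.sum_eq_zero
    intro k _
    rw [coeff_C_mul, coeff_X, if_neg, mul_zero]
    intro h
    exact hm ⟨k, h.symm⟩

/-- even multiplicities are inherited by products of irreducible factors -/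
theorem evenOn_of_factors {δ μ : P3} (hμ0 : μ ≠ 0)
    (h : ∀ π : P3, Irreducible π → π ∣ μ → EvenOn δ π) : EvenOn δ μ := by
  induction μ using UniqueFactorizationMonoid.induction_on_prime with
  | h₁ => exact absurd rfl hμ0
  | h₂ x hx =>
    intro z _ _
    refine ⟨1, x, 1, by simp, ?_, ?_⟩
    · exact (hx.map (eval z)).ne_zero
    · rw [one_mul, one_pow, mul_one, sub_self]; exact dvd_zero _
  | h₃ a p ha hp ih =>
    exact evenOn_mul (h p hp.irreducible (dvd_mul_right _ _))
      (ih ha fun π hπ hd => h π hπ (hd.mul_left _))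

open Pool.Agent.Helper16 in
theorem adj33_not_dvd {c : Cub (I6 → ℂ)} (hirr : Irreducible c.disc) :
    ¬ c.disc ∣ (c.Nm (X : Fin 3 → P3)).adjugate 3 3 := by
  intro h
  obtain ⟨n, hn, h33⟩ := c.adj_hom 3 3
  have hw : wt 3 = 0 := rfl
  rw [hw] at hn
  have hn' : n = 3 := by omega
  subst hn'
  have h0 := eq_zero_of_dvd_lt c.disc_hom hirr.ne_zero h33 (by norm_num) h
  have h3i : ∀ i : Fin 4, (c.Nm (X : Fin 3 → P3)).adjugate i 3 = 0 := by
    intro i
    by_cases hi : i = 3
    · rw [hi]; exact h0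
    obtain ⟨n, hn, hi3⟩ := c.adj_hom i 3
    rw [hw] at hn
    have hwi : wt i = 1 := by
      rcases wt_cases i with ⟨_, h⟩ | ⟨h, _⟩
      · exact h
      · exact absurd h hi
    rw [hwi] at hn
    have hn' : n = 4 := by omega
    subst hn'
    apply eq_zero_of_dvd_lt c.disc_hom hirr.ne_zero hi3 (by norm_num)
    have h1 := det_dvd_adj (c.Nm (X : Fin 3 → P3)) i 3 3 i
    have hs : (c.Nm (X : Fin 3 → P3)).adjugate 3 i = (c.Nm (X : Fin 3 → P3)).adjugate i 3 := by
      have h2 : (c.Nm (X : Fin 3 → P3)).adjugate.transpose = (c.Nm (X : Fin 3 → P3)).adjugate := by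
        rw [Matrix.adjugate_transpose, c.Nm_symm]
      exact (congrFun (congrFun h2 i) 3)
    rw [h0, hs, mul_zero, sub_eq_add_neg, ← sub_eq_add_neg] at h1
    have h3 : c.disc ∣ (c.Nm (X : Fin 3 → P3)).adjugate i 3 ^ 2 := by
      rw [pow_two]
      have : (c.Nm (X : Fin 3 → P3)).det = c.disc := rfl
      rw [this] at h1
      simpa using h1
    exact hirr.prime.dvd_of_dvd_pow h3
  apply hirr.ne_zero
  have h4 := congrFun (congrFun (Matrix.mul_adjugate (c.Nm (X : Fin 3 → P3))) 3) 3
  rw [Matrix.mul_apply, Finset.sum_eq_zero (fun k _ => by rw [h3i k, mul_zero]),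
    Matrix.smul_apply, Matrix.one_apply_eq, smul_eq_mul, mul_one] at h4
  exact h4.symm

open Pool.Agent.Helper16 in
/-- Theorem A -/
theorem main_contact {c : Cub (I6 → ℂ)} (hP : c.Iso P0)
    (hsm : ∀ z : Fin 3 → ℂ, z ≠ 0 → eval z c.disc = 0 → ∃ i, eval z (pderiv i c.disc) ≠ 0)
    (μ : P3) (k : ℕ) (hμ : μ.IsHomogeneous (2 * k)) (hμδ : ¬ c.disc ∣ μ)
    (hsp : ∀ π : P3, Irreducible π → π ∣ μ → ∃ g h : P3, ¬ π ∣ h ∧ π ∣ g ^ 2 - c.disc * h ^ 2)
    (hne : ∀ s G : P3, s.IsHomogeneous (k + 3) → G.IsHomogeneous 3 →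
      c.disc ∣ s ^ 2 - μ * (c.Nm (X : Fin 3 → P3)).adjugate 3 3 * G → c.disc ∣ s) : c.Rat4 := by
  have hδh : c.disc.IsHomogeneous 6 := c.disc_hom
  have hirr : Irreducible c.disc := irreducible_of_smooth (by norm_num) hδh hsm
  have hμ0 : μ ≠ 0 := fun h => hμδ (h ▸ dvd_zero _)
  have h33 := adj33_not_dvd hirr
  obtain ⟨n, hn, h33h⟩ := c.adj_hom 3 3
  have hw : wt 3 = 0 := rfl
  rw [hw] at hn
  have hn' : n = 3 := by omega
  subst hn'
  have hμe : EvenOn c.disc μ := evenOn_of_factors hμ0 (by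
    intro π hπ hd
    obtain ⟨g, h, h1, h2⟩ := hsp π hπ hd
    obtain ⟨m, hm⟩ := hd
    obtain ⟨e, b, he, -, -⟩ := hom_factor (hm ▸ hμ) (hm ▸ hμ0)
    obtain ⟨d, g', h', hg', hh', h1', h2'⟩ := hom_sq3 he hπ hδh h1 h2
    exact evenOn_split c.disc π e hδh hirr hsm hπ he
      (fun hd => hμδ (hm ▸ hd.mul_right _)) d g' h' hg' hh' h1' h2')
  set N := c.Nm (X : Fin 3 → P3) with hN
  have hdN : N.det = c.disc := rfl
  have hadj : EvenOn c.disc (N.adjugate 3 3) := evenOn_adj N (c.Nm_symm _) hsm 3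
  have hhe : EvenOn c.disc (μ * N.adjugate 3 3) := evenOn_mul hμe hadj
  have hhh : (μ * N.adjugate 3 3).IsHomogeneous (2 * k + 3) := hμ.mul h33h
  have hhδ : ¬ c.disc ∣ μ * N.adjugate 3 3 := by
    intro h
    rcases hirr.prime.dvd_or_dvd h with h | h
    · exact hμδ h
    · exact h33 h
  obtain ⟨s, A, hs, hli, hA, hA5, hsA⟩ := exists_six c.disc (μ * N.adjugate 3 3) k hδh hsm hhh hhδ
    hhe
  have hns := nonsing c.disc (μ * N.adjugate 3 3) k hδh hirr hhh hhδ hne s A hs hli hA hA5 hsA
  have hmin : ∀ i j k l, c.disc ∣ A i j * A k l - A i l * A k j := by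
    intro i j k l
    have h1 : c.disc ∣ (μ * N.adjugate 3 3) ^ 2 * (A i j * A k l - A i l * A k j) := by
      have e : (μ * N.adjugate 3 3) ^ 2 * (A i j * A k l - A i l * A k j) =
          (s i * s l - μ * N.adjugate 3 3 * A i l) * (s k * s j) +
          (μ * N.adjugate 3 3 * A i l) * (s k * s j - μ * N.adjugate 3 3 * A k j) -
          (s i * s j - μ * N.adjugate 3 3 * A i j) * (s k * s l) -
          (μ * N.adjugate 3 3 * A i j) * (s k * s l - μ * N.adjugate 3 3 * A k l) := by ring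
      rw [e]
      exact dvd_sub (dvd_sub (dvd_add ((hsA i l).mul_right _) ((hsA k j).mul_left _))
        ((hsA i j).mul_right _)) ((hsA k l).mul_left _)
    rcases hirr.prime.dvd_or_dvd h1 with h | h
    · exact absurd (hirr.prime.dvd_of_dvd_pow h) hhδ
    · exact h
  obtain ⟨M, hM, hM1, hMd, a, ha, hMa⟩ := dix_matrix c.disc hδh hirr A hA hA5 hmin hns
  let m : Fin 3 → Matrix (Fin 6) (Fin 6) ℂ := fun k =>
    Matrix.of fun i j => coeff (Finsupp.single k 1) (M i j)
  have hm : ∀ k, (m k).IsSymm := by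
    intro k
    apply Matrix.IsSymm.ext
    intro i j
    simp only [m, Matrix.of_apply]
    rw [hM.apply]
  have hMm : netP m = M := by
    ext1 i j
    rw [netP, Matrix.of_apply]
    exact (linear_eq (hM1 i j)).symm
  obtain ⟨r, hr⟩ := IsAlgClosed.exists_pow_nat_eq a (n := 2) (by norm_num)
  refine main_of_net hP hirr hsm m hm (by rw [hMm, hMd]) μ hμ hμδ hsp 3 0 (C r * s 0) h33 (nj := 5)
    ?_ h33h ?_ ?_
  · rw [hMm, hMa]
    intro h
    rcases hirr.prime.dvd_or_dvd h with h | h
    · have h1 : IsUnit (C a : P3) := (isUnit_iff_ne_zero.mpr ha).map C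
      exact hirr.not_isUnit (isUnit_of_dvd_unit h h1)
    · have h1 : c.disc ∣ s 0 ^ 2 := by
        have h2 := hsA 0 0
        have h3 : s 0 ^ 2 = (s 0 * s 0 - μ * N.adjugate 3 3 * A 0 0) +
          μ * N.adjugate 3 3 * A 0 0 := by ring
        rw [h3]
        exact dvd_add h2 (h.mul_left _)
      have h2 := hirr.prime.dvd_of_dvd_pow h1
      have h3 := hli (Pi.single 0 1) (by
        rw [Finset.sum_eq_single 0]
        · simpa using h2
        · intro b _ hb
          simp [hb]
        · simp)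
      have h4 := congrFun h3 0
      simp at h4
  · rw [hMm, hMa]
    have h1 := (isHomogeneous_C (Fin 3) a).mul (hA5 0 0)
    rwa [zero_add] at h1
  · rw [hMm, hMa]
    have h1 : (C r * s 0) ^ 2 - μ * N.adjugate 3 3 * (C a * A 0 0) =
        C a * (s 0 * s 0 - μ * N.adjugate 3 3 * A 0 0) := by
      rw [← hr, C_pow]; ring
    rw [h1]
    exact (hsA 0 0).mul_left _

end Pool.Agent.Helper29.HP
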