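import Pool.Agent.Helper29.HP.Setup
import Pool.Agent.Helper29.HP.Main

set_option autoImplicit false

/-!
Theorem A in the language of the cubic form and the matrix of its quadric surface bundle.
-/

namespace Pool.Agent.Helper29.HP

open MvPolynomial Module

theorem three_smul_det (N : Matrix (Fin 4) (Fin 4) P3) :
    ((3 : P3) • N).det = C 81 * N.det := by
  rw [Matrix.det_smul, Fintype.card_fin]
  congr 1
  rw [← map_ofNat C 3, ← C_pow]
  norm_num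

theorem three_smul_adj (N : Matrix (Fin 4) (Fin 4) P3) (i j : Fin 4) :
    ((3 : P3) • N).adjugate i j = C 27 * N.adjugate i j := by
  rw [Matrix.adjugate_smul, Fintype.card_fin, Matrix.smul_apply, smul_eq_mul]
  congr 1
  rw [← map_ofNat C 3, ← C_pow]
  norm_num

theorem isUnit_CC {a : ℂ} (ha : a ≠ 0) : IsUnit (C a : P3) :=
  (isUnit_iff_ne_zero.mpr ha).map C

theorem C_dvd_iff {a : ℂ} (ha : a ≠ 0) (p q : P3) : C a * p ∣ q ↔ p ∣ q :=
  (isUnit_CC ha).mul_left_dvd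

/-- smoothness of the discriminant curve -/
theorem smooth_scale {d d' : P3} {a : ℂ} (hd : d' = C a * d)
    (h : ∀ z : Fin 3 → ℂ, z ≠ 0 → eval z d' = 0 → ∃ i, eval z (pderiv i d') ≠ 0) :
    ∀ z : Fin 3 → ℂ, z ≠ 0 → eval z d = 0 → ∃ i, eval z (pderiv i d) ≠ 0 := by
  intro z hz h0
  obtain ⟨i, hi⟩ := h z hz (by rw [hd, map_mul, h0, mul_zero])
  refine ⟨i, fun h1 => hi ?_⟩
  rw [hd, Derivation.leibniz, pderiv_C, smul_zero, add_zero, smul_eq_mul, map_mul, h1, mul_zero]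

/-- the splitting condition -/
theorem split_scale {d d' μ : P3} (hd : d' = C 81 * d)
    (h : ∀ π : P3, Irreducible π → π ∣ μ → ∃ g h : P3, ¬ π ∣ h ∧ π ∣ g ^ 2 - d' * h ^ 2) :
    ∀ π : P3, Irreducible π → π ∣ μ → ∃ g h : P3, ¬ π ∣ h ∧ π ∣ g ^ 2 - d * h ^ 2 := by
  intro π hπ hπμ
  obtain ⟨g, k, h1, h2⟩ := h π hπ hπμ
  refine ⟨g, C 9 * k, ?_, ?_⟩
  · rw [(isUnit_CC (by norm_num : (9 : ℂ) ≠ 0)).dvd_mul_left]
    exact h1
  · have e : g ^ 2 - d * (C 9 * k) ^ 2 = g ^ 2 - d' * k ^ 2 := by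
      rw [hd, mul_pow, ← C_pow]
      norm_num
      ring
    rw [e]; exact h2

/-- Theorem A: the twisted theta characteristic has no section -/
theorem rational_of_no_section (F : MvPolynomial (Fin 6) ℂ) (hF : F.IsHomogeneous 3)
    (hs : ∀ x : Fin 6 → ℂ, x ≠ 0 → ∃ i, eval x (pderiv i F) ≠ 0)
    (w : Basis (Fin 3 ⊕ Fin 3) ℂ (Fin 6 → ℂ))
    (N : Matrix (Fin 4) (Fin 4) (MvPolynomial (Fin 3) ℂ)) (hN : N.IsSymm)
    (hQ : ∀ (y z : Fin 3 → ℂ) (s : ℂ),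
      eval (∑ i, y i • w (.inl i) + s • ∑ i, z i • w (.inr i)) F =
        s * ∑ i, ∑ j, eval z (N i j) * (![y 0, y 1, y 2, s] : Fin 4 → ℂ) i *
          (![y 0, y 1, y 2, s] : Fin 4 → ℂ) j)
    (hD : ∀ z : Fin 3 → ℂ, z ≠ 0 → eval z N.det = 0 → ∃ i, eval z (pderiv i N.det) ≠ 0)
    (k : ℕ) (μ : MvPolynomial (Fin 3) ℂ) (hμ : μ.IsHomogeneous (2 * k)) (hμD : ¬ N.det ∣ μ)
    (hsp : ∀ π, Irreducible π → π ∣ μ → ∃ g h, ¬ π ∣ h ∧ π ∣ g ^ 2 - N.det * h ^ 2)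
    (hne : ∀ s G : MvPolynomial (Fin 3) ℂ, s.IsHomogeneous (k + 3) → G.IsHomogeneous 3 →
      N.det ∣ s ^ 2 - μ * N.adjugate 3 3 * G → N.det ∣ s) :
    (Ideal.span {aeval (Fin.cons 1 X : Fin 6 → MvPolynomial (Fin 5) ℂ) F}).IsPrime ∧
      Nonempty (FractionRing (MvPolynomial (Fin 5) ℂ ⧸
          Ideal.span {aeval (Fin.cons 1 X : Fin 6 → MvPolynomial (Fin 5) ℂ) F}) ≃ₐ[ℂ]
        FractionRing (MvPolynomial (Fin 4) ℂ)) := by
  obtain ⟨c, hP, hNc, hr⟩ := exists_cub F hF hs w N hN hQ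
  apply hr
  have hdet : N.det = C 81 * c.disc := by rw [hNc, three_smul_det]; rfl
  have hadj : N.adjugate 3 3 = C 27 * (c.Nm (X : Fin 3 → P3)).adjugate 3 3 := by
    rw [hNc, three_smul_adj]
  have h81 : (81 : ℂ) ≠ 0 := by norm_num
  refine main_contact hP (smooth_scale hdet hD) μ k hμ (fun h => hμD ?_) (split_scale hdet hsp) ?_
  · rw [hdet, C_dvd_iff h81]; exact h
  · intro s G hs hG h
    have h1 := hne s (C (1 / 27) * G) hs (by
      have := (isHomogeneous_C (Fin 3) (1 / 27 : ℂ)).mul hG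
      rwa [zero_add] at this) (by
      rw [hdet, C_dvd_iff h81, hadj]
      have e : s ^ 2 - μ * (C 27 * (c.Nm (X : Fin 3 → P3)).adjugate 3 3) * (C (1 / 27) * G) =
          s ^ 2 - (C 27 * C (1 / 27)) * (μ * (c.Nm (X : Fin 3 → P3)).adjugate 3 3 * G) := by ring
      rw [e, ← C_mul]
      norm_num
      exact h)
    rwa [hdet, C_dvd_iff h81] at h1

end Pool.Agent.Helper29.HP
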