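import Mathlib
import Pool.Agent.Helper16.CubicGen

set_option autoImplicit false

/-!
From a cubic form with a plane and the matrix of its quadric surface bundle to the trilinear
language of `Cub`.
-/

namespace Pool.Agent.Helper29.HP

open MvPolynomial Module

/-- symmetric bilinear forms which agree as quadratic forms off a hyperplane are equal -/
theorem bil_eq (β : (Fin 4 → ℂ) →ₗ[ℂ] (Fin 4 → ℂ) →ₗ[ℂ] ℂ) (hsym : ∀ u v, β u v = β v u)
    (h : ∀ v, v 3 ≠ 0 → β v v = 0) (u v : Fin 4 → ℂ) : β u v = 0 := by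
  have hq : ∀ v, β v v = 0 := by
    intro v
    by_cases hv : v 3 = 0
    · have h1 := h (v + Pi.single 3 1) (by simp [hv])
      have h2 := h (v - Pi.single 3 1) (by simp [hv])
      have h3 := h (Pi.single 3 1) (by simp)
      simp only [map_add, map_sub, LinearMap.add_apply, LinearMap.sub_apply] at h1 h2
      linear_combination (1 / 2) * h1 + (1 / 2) * h2 - h3
    · exact h v hv
  have h1 := hq (u + v)
  simp only [map_add, LinearMap.add_apply, hq, hsym v u] at h1
  linear_combination (1 / 2) * h1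

/-- The trilinear form attached to a smooth cubic form with a plane and the matrix of the quadric
surface bundle. -/
theorem exists_cub (F : MvPolynomial (Fin 6) ℂ) (hF : F.IsHomogeneous 3)
    (hs : ∀ x : Fin 6 → ℂ, x ≠ 0 → ∃ i, eval x (pderiv i F) ≠ 0)
    (w : Basis (Fin 3 ⊕ Fin 3) ℂ (Fin 6 → ℂ))
    (N : Matrix (Fin 4) (Fin 4) (MvPolynomial (Fin 3) ℂ)) (hN : N.IsSymm)
    (hQ : ∀ (y z : Fin 3 → ℂ) (s : ℂ),
      eval (∑ i, y i • w (.inl i) + s • ∑ i, z i • w (.inr i)) F =
        s * ∑ i, ∑ j, eval z (N i j) * (![y 0, y 1, y 2, s] : Fin 4 → ℂ) i *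
          (![y 0, y 1, y 2, s] : Fin 4 → ℂ) j) :
    ∃ c : Helper16.Cub (Helper16.I6 → ℂ), c.Iso Helper16.P0 ∧
      N = (3 : MvPolynomial (Fin 3) ℂ) • c.Nm (X : Fin 3 → MvPolynomial (Fin 3) ℂ) ∧
      (c.Rat4 → (Ideal.span {aeval (Fin.cons 1 X : Fin 6 → MvPolynomial (Fin 5) ℂ) F}).IsPrime ∧
      Nonempty (FractionRing (MvPolynomial (Fin 5) ℂ ⧸
          Ideal.span {aeval (Fin.cons 1 X : Fin 6 → MvPolynomial (Fin 5) ℂ) F}) ≃ₐ[ℂ]
        FractionRing (MvPolynomial (Fin 4) ℂ))) := by
  classical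
  have hs' : Helper16.Smooth F := hs
  set c0 := Helper16.cubOf F hF hs' with hc0
  set e : (Helper16.I6 → ℂ) ≃ₗ[ℂ] (Fin 6 → ℂ) := w.equivFun.symm with he
  set c := c0.comap e with hc
  have hex : ∀ x : Helper16.I6 → ℂ,
      e x = ∑ i, x (.inl i) • w (.inl i) + ∑ i, x (.inr i) • w (.inr i) := by
    intro x
    rw [he, Basis.equivFun_symm_apply, Fintype.sum_sum_type]
  have hcF : ∀ x : Helper16.I6 → ℂ, c.T x x x = eval (e x) F := by
    intro x
    rw [hc, Helper16.Cub.comap_apply, hc0, Helper16.cubOf_apply]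
  have hP : c.Iso Helper16.P0 := by
    intro x hx
    have h1 := hQ (Helper16.pY ℂ x) 0 0
    rw [hcF, hex]
    have hxz : ∀ i, x (.inr i) = 0 := by
      intro i
      have := congrFun (Helper16.mem_P0.mp hx) i
      simpa using this
    simp only [hxz, zero_smul, Finset.sum_const_zero, add_zero]
    simpa using h1
  -- the matrix of the quadric bundle
  have hpt : ∀ (y z : Fin 3 → ℂ) (s : ℂ), e (Helper16.pt z (Helper16.mk4 y s)) =
      ∑ i, y i • w (.inl i) + s • ∑ i, z i • w (.inr i) := by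
    intro y z s
    rw [Helper16.pt_mk4, hex]
    congr 1
    · simp
    · rw [Finset.smul_sum]
      refine Finset.sum_congr rfl fun i _ => ?_
      rw [smul_smul]
      simp
  have hq1 : ∀ (y z : Fin 3 → ℂ) (s : ℂ), s * ∑ i, ∑ j, eval z (N i j) *
      Helper16.mk4 y s i * Helper16.mk4 y s j =
        s * (3 * c.nf z (Helper16.mk4 y s) (Helper16.mk4 y s)) := by
    intro y z s
    have h1 := Helper16.Cub.T_pt hP z (Helper16.mk4 y s)
    rw [hcF, hpt, hQ, Helper16.mk4_3] at h1
    rw [Helper16.mk4]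
    rw [Helper16.mk4] at h1
    linear_combination h1
  have hq2 : ∀ (z : Fin 3 → ℂ) (v : Fin 4 → ℂ), v 3 ≠ 0 →
      ∑ i, ∑ j, eval z (N i j) * v i * v j = 3 * c.nf z v v := by
    intro z v hv
    have h1 := hq1 (fun a => v a.castSucc) z (v 3)
    rw [← Helper16.eq_mk4] at h1
    exact mul_left_cancel₀ hv h1
  have hNsym : ∀ (z : Fin 3 → ℂ) i j, eval z (N i j) = eval z (N j i) := fun z i j => by
    rw [← hN.apply i j]
  -- polarisation
  have hbil : ∀ (z : Fin 3 → ℂ) (u v : Fin 4 → ℂ),
      ∑ i, ∑ j, eval z (N i j) * u i * v j = 3 * c.nf z u v := by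
    intro z u v
    let β1 : (Fin 4 → ℂ) →ₗ[ℂ] (Fin 4 → ℂ) →ₗ[ℂ] ℂ :=
      LinearMap.mk₂ ℂ (fun u v => ∑ i, ∑ j, eval z (N i j) * u i * v j)
        (by intro a b d; simp only [Pi.add_apply, mul_add, add_mul, Finset.sum_add_distrib])
        (by
          intro r a b
          simp only [Pi.smul_apply, smul_eq_mul, Finset.mul_sum]
          refine Finset.sum_congr rfl fun i _ => Finset.sum_congr rfl fun j _ => ?_
          ring)
        (by intro a b d; simp only [Pi.add_apply, mul_add, Finset.sum_add_distrib])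
        (by
          intro r a b
          simp only [Pi.smul_apply, smul_eq_mul, Finset.mul_sum]
          refine Finset.sum_congr rfl fun i _ => Finset.sum_congr rfl fun j _ => ?_
          ring)
    have hβ1 : ∀ u v, β1 u v = ∑ i, ∑ j, eval z (N i j) * u i * v j := fun u v => rfl
    have key := bil_eq (β1 - (3 : ℂ) • c.nf z) (by
      intro u v
      simp only [LinearMap.sub_apply, LinearMap.smul_apply, hβ1]
      rw [c.nf_symm z v u, Finset.sum_comm]
      congr 1
      refine Finset.sum_congr rfl fun i _ => Finset.sum_congr rfl fun j _ => ?_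
      rw [hNsym z j i]; ring) (by
      intro v hv
      simp only [LinearMap.sub_apply, LinearMap.smul_apply, hβ1, smul_eq_mul]
      rw [hq2 z v hv, sub_self]) u v
    simp only [LinearMap.sub_apply, LinearMap.smul_apply, hβ1, smul_eq_mul] at key
    exact sub_eq_zero.mp key
  have hN3 : N = (3 : MvPolynomial (Fin 3) ℂ) • c.Nm (X : Fin 3 → MvPolynomial (Fin 3) ℂ) := by
    ext1 i j
    apply MvPolynomial.funext
    intro z
    have h1 := hbil z (Pi.single i 1) (Pi.single j 1)
    have h2 : ∑ i', ∑ j', eval z (N i' j') * (Pi.single i 1 : Fin 4 → ℂ) i' *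
        (Pi.single j 1 : Fin 4 → ℂ) j' = eval z (N i j) := by
      rw [Finset.sum_eq_single i, Finset.sum_eq_single j]
      · simp
      · intro b _ hb; simp [hb]
      · simp
      · intro b _ hb; simp [hb]
      · simp
    have h3 : eval z (c.Nm (X : Fin 3 → MvPolynomial (Fin 3) ℂ) i j) = c.Nm z i j := by
      have := congrFun (congrFun (c.Nm_eval z) i) j
      rwa [Matrix.map_apply] at this
    rw [← h2, h1, Matrix.smul_apply, smul_eq_mul, map_mul, h3, Helper16.Cub.Nm_apply]
    congr 1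
    exact (map_ofNat (eval z) 3).symm
  refine ⟨c, hP, hN3, fun h => ⟨?_, Helper16.rational_of_rat4 hF hs' e h⟩⟩
  have hirr := Helper16.irreducible_dh hF hs'
  exact (Ideal.span_singleton_prime hirr.ne_zero).mpr hirr.prime

end Pool.Agent.Helper29.HP
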